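import Mathlib
import Pool.Agent.L7h25.AN.Stm

/-!
The discriminant statement `St_disc` of the project AN.
-/

set_option autoImplicit false

namespace Pool.Agent.L7h76.AN

open Polynomial Finset Pool.Agent.L7h25.AN

lemma pen_coprime {K : Type} [Field K] {n a : ℕ} {P Q : K[X]} {c β : K} (h : Pen K n a P Q c β) :
    IsCoprime P Q := by
  have a1 : IsCoprime (X : K[X]) Q := by
    rw [irreducible_X.coprime_iff_not_dvd, X_dvd_iff, coeff_zero_eq_eval_zero]
    exact h.Q0
  have a2 : IsCoprime (X - C β : K[X]) Q := by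
    rw [(irreducible_X_sub_C β).coprime_iff_not_dvd, dvd_iff_isRoot]
    exact h.Qβ
  have a3 : IsCoprime (C c) Q :=
    ⟨C c⁻¹, 0, by rw [zero_mul, add_zero, ← C_mul, inv_mul_cancel₀ h.c0, C_1]⟩
  have a4 : IsCoprime (derivative P * Q - P * derivative Q) Q := by
    rw [h.W]
    exact (a3.mul_left a1.pow_left).mul_left a2
  have a5 : IsCoprime (-(P * derivative Q) + Q * derivative P) Q := by
    have : -(P * derivative Q) + Q * derivative P = derivative P * Q - P * derivative Q := by ring
    rw [this]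
    exact a4
  have a6 := IsCoprime.of_add_mul_left_left a5
  rw [IsCoprime.neg_left_iff] at a6
  exact a6.of_mul_left_left

lemma eval_der {N : Type} [Field N] {n : ℕ} (r : Fin n → N) (i : Fin n) :
    eval (r i) (derivative (∏ j, (X - C (r j)))) = ∏ j ∈ ({i}ᶜ : Finset (Fin n)), (r i - r j) := by
  rw [derivative_prod_finset, eval_finset_sum, Finset.sum_eq_single i]
  · rw [derivative_X_sub_C, mul_one, eval_prod]
    apply Finset.prod_congr
    · ext j; simp
    · intro j _
      simp
  · intro b _ hb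
    rw [eval_mul, eval_prod, Finset.prod_eq_zero (i := i), zero_mul]
    · simp [Ne.symm hb]
    · simp
  · intro h
    exact absurd (Finset.mem_univ i) h

lemma prod_der {N : Type} [Field N] {n : ℕ} (r : Fin n → N) :
    ∏ i, eval (r i) (derivative (∏ j, (X - C (r j)))) =
      (∏ i : Fin n, ∏ j ∈ Ioi i, (-1 : N)) * VV r ^ 2 := by
  simp only [eval_der]
  rw [← Finset.prod_prod_Ioi_mul_eq_prod_prod_off_diag (fun j i => r i - r j)]
  rw [VV, sq, ← Finset.prod_mul_distrib, ← Finset.prod_mul_distrib]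
  apply Finset.prod_congr rfl
  intro i _
  rw [← Finset.prod_mul_distrib, ← Finset.prod_mul_distrib]
  apply Finset.prod_congr rfl
  intro j _
  ring

theorem st_disc : St_disc := by
  intro K _ n a P Q c β h
  set ς : K := ∏ i : Fin n, ∏ j ∈ Ioi i, (-1 : K) with hς
  set R : K := resultant P Q n Q.natDegree with hR
  have hς0 : ς ≠ 0 := by
    rw [hς]
    exact Finset.prod_ne_zero_iff.2 fun i _ => Finset.prod_ne_zero_iff.2 fun j _ =>
      neg_ne_zero.2 one_ne_zero
  have hR0 : R ≠ 0 := by
    have := resultant_ne_zero P Q (pen_coprime h)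
    rwa [h.deg] at this
  refine ⟨ς⁻¹ * R⁻¹ * c ^ n * ((-1) ^ (n + 1) * Q.eval 0) ^ a * ((-1) ^ (n + 1) * Q.eval β),
    ?_, ?_⟩
  · have h1 : ((-1 : K) ^ (n + 1)) ≠ 0 := pow_ne_zero _ (neg_ne_zero.2 one_ne_zero)
    exact mul_ne_zero (mul_ne_zero (mul_ne_zero (mul_ne_zero (inv_ne_zero hς0) (inv_ne_zero hR0))
      (pow_ne_zero _ h.c0)) (pow_ne_zero _ (mul_ne_zero h1 h.Q0))) (mul_ne_zero h1 h.Qβ)
  intro N _ _ _ t r hf
  set φ := algebraMap K N with hφ
  have hfr : ∀ i, eval (r i) (P.map φ) = t * eval (r i) (Q.map φ) := by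
    intro i
    have h1 := congrArg (eval (r i)) hf
    rw [eval_sub, eval_mul, eval_C, eval_prod, Finset.prod_eq_zero (Finset.mem_univ i) (by simp)]
      at h1
    linear_combination h1
  have hder : ∀ i, eval (r i) (derivative (∏ j, (X - C (r j)))) * eval (r i) (Q.map φ) =
      φ c * r i ^ a * (r i - φ β) := by
    intro i
    have h1 := congrArg (fun q => eval (r i) (q.map φ)) h.W
    simp only [Polynomial.map_sub, Polynomial.map_mul, Polynomial.map_pow, map_X, map_C, eval_sub,
      eval_mul, eval_pow, eval_X, eval_C, ← derivative_map] at h1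
    rw [← h1, ← hf, derivative_sub, derivative_C_mul, eval_sub, eval_mul, eval_C, hfr i]
    ring
  have hprod : (∏ i, eval (r i) (derivative (∏ j, (X - C (r j))))) *
      (∏ i, eval (r i) (Q.map φ)) = φ c ^ n * (∏ i, r i) ^ a * ∏ i, (r i - φ β) := by
    rw [← Finset.prod_mul_distrib]
    simp only [hder]
    rw [Finset.prod_mul_distrib, Finset.prod_mul_distrib, Finset.prod_const, Finset.card_univ,
      Fintype.card_fin, Finset.prod_pow]
  have hres : ∏ i, eval (r i) (Q.map φ) = φ R := by
    have h1 : resultant (∏ i, (X - C (r i))) (Q.map φ) (∏ i, (X - C (r i))).natDegree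
        Q.natDegree = ∏ i, (X - C (r i)).resultant (Q.map φ) (X - C (r i)).natDegree
          Q.natDegree := by
      apply resultant_prod_left
      · simp
      · exact natDegree_map_le
    have h2 : (∏ i, (X - C (r i))).natDegree = n := by
      rw [natDegree_prod_of_monic _ _ fun i _ => monic_X_sub_C _]
      simp
    rw [h2, ← hf] at h1
    have h3 : resultant (P.map φ - C t * Q.map φ) (Q.map φ) n Q.natDegree = φ R := by
      have h4 : P.map φ - C t * Q.map φ = P.map φ + Q.map φ * (- C t) := by ring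
      rw [h4, resultant_add_mul_left, resultant_map_map]
      · rw [natDegree_neg, natDegree_C, zero_add]
        exact h.degQ.le
      · exact natDegree_map_le
    rw [h3] at h1
    rw [h1]
    apply Finset.prod_congr rfl
    intro i _
    rw [natDegree_X_sub_C, resultant_X_sub_C_left]
    exact natDegree_map_le
  have hev : ∀ z : K, φ (P.eval z) - t * φ (Q.eval z) = (-1) ^ n * ∏ i, (r i - φ z) := by
    intro z
    have h1 := congrArg (eval (φ z)) hf
    rw [eval_sub, eval_mul, eval_C, eval_prod, eval_map_apply, eval_map_apply] at h1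
    rw [h1]
    have h2 : ((-1 : N) ^ n) = ∏ i : Fin n, (-1 : N) := by simp
    rw [h2, ← Finset.prod_mul_distrib]
    apply Finset.prod_congr rfl
    intro i _
    simp
  have hsg : ((-1 : N) ^ n) * (-1) ^ n = 1 := by
    rw [← mul_pow]; simp
  have hz : ∀ z : K, ∏ i, (r i - φ z) = (-1) ^ n * (φ (P.eval z) - t * φ (Q.eval z)) := by
    intro z
    rw [hev z, ← mul_assoc, hsg, one_mul]
  have h0 : ∏ i, r i = (-1) ^ (n + 1) * φ (Q.eval 0) * t := by
    have h1 := hz 0
    simp only [map_zero, sub_zero, h.P0] at h1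
    rw [h1]
    ring
  have hβ : ∏ i, (r i - φ β) = (-1) ^ (n + 1) * φ (Q.eval β) * (t - φ (P.eval β / Q.eval β)) := by
    rw [hz β, map_div₀]
    have h1 : φ (Q.eval β) ≠ 0 := by
      rw [hφ]
      exact (_root_.map_ne_zero _).2 h.Qβ
    field_simp
    ring
  rw [prod_der, hres, h0, hβ] at hprod
  have hςN : (∏ i : Fin n, ∏ j ∈ Ioi i, (-1 : N)) = φ ς := by
    rw [hς, map_prod]
    simp
  rw [hςN] at hprod
  have k1 : φ ς ≠ 0 := (_root_.map_ne_zero _).2 hς0
  have k2 : φ R ≠ 0 := (_root_.map_ne_zero _).2 hR0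
  simp only [map_mul, map_inv₀, map_pow, map_neg, map_one]
  field_simp
  have k3 : VV r ^ 2 * φ ς * φ R = φ ς * VV r ^ 2 * φ R := by ring
  linear_combination hprod

end Pool.Agent.L7h76.AN
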