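import Mathlib
import Pool.Agent.L7h25.AN.Stm

/-!
The irreducibility statement `St_irr` of the project AN.
-/

set_option autoImplicit false

namespace Pool.Agent.L7h76.AN

open Polynomial Pool.Agent.L7h25.AN

variable {κ : Type} [Field κ]

lemma exH (P Q : κ[X]) :
    ∃ H : κ[X][X], (X - C X) * H = P.map C * C Q - C P * Q.map C := by
  have h : (X - C X : κ[X][X]) ∣ P.map C * C Q - C P * Q.map C := by
    rw [dvd_iff_isRoot, IsRoot.def]
    simp [eval_map, eval₂_C_X]
  obtain ⟨H, hH⟩ := h
  exact ⟨H, hH.symm⟩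

lemma lead {n : ℕ} {P Q : κ[X]} (hP : P.Monic) (hd : P.natDegree = n) (hQ : Q.natDegree < n)
    (hQ0 : Q ≠ 0) {H : κ[X][X]} (hH : (X - C X) * H = P.map C * C Q - C P * Q.map C) :
    H.natDegree = n - 1 ∧ H.leadingCoeff = Q := by
  have hP1 : (P.map C : κ[X][X]).Monic := hP.map _
  have hP2 : (P.map C : κ[X][X]).natDegree = n := by
    rw [hP.natDegree_map, hd]
  have h1 : (P.map C * C Q : κ[X][X]).natDegree = n := by
    rw [natDegree_mul_C hQ0, hP2]
  have h2 : (P.map C * C Q : κ[X][X]).leadingCoeff = Q := by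
    rw [leadingCoeff_mul, hP1.leadingCoeff, leadingCoeff_C, one_mul]
  have h3 : (C P * Q.map C : κ[X][X]).natDegree < n := by
    refine lt_of_le_of_lt (natDegree_C_mul_le _ _) (lt_of_le_of_lt natDegree_map_le hQ)
  have h4 : (P.map C * C Q - C P * Q.map C : κ[X][X]).natDegree = n := by
    rw [natDegree_sub_eq_left_of_natDegree_lt (by rw [h1]; exact h3), h1]
  have h5 : (P.map C * C Q - C P * Q.map C : κ[X][X]).leadingCoeff = Q := by
    rw [leadingCoeff, h4, coeff_sub, coeff_eq_zero_of_natDegree_lt h3, sub_zero]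
    rw [← h1, ← leadingCoeff, h2]
  have hX : (X - C X : κ[X][X]).Monic := monic_X_sub_C _
  have hH0 : H ≠ 0 := by
    rintro rfl
    rw [mul_zero] at hH
    rw [← hH, leadingCoeff_zero] at h5
    exact hQ0 h5.symm
  constructor
  · have h6 : ((X - C X : κ[X][X]) * H).natDegree = 1 + H.natDegree := by
      rw [natDegree_mul hX.ne_zero hH0, natDegree_X_sub_C]
    rw [hH, h4] at h6
    omega
  · rw [← h5, ← hH, leadingCoeff_monic_mul hX]

/-- the cases `P = X ^ (n - 1) (X - 1)` -/
lemma irr_eis {n : ℕ} (hn : 5 ≤ n) {P Q : κ[X]} (hP : P = X ^ (n - 1) * (X - 1))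
    (hQ : Q.natDegree < n) (hQ0 : Q.eval 0 ≠ 0) (hQ1 : Q.eval 1 ≠ 0) {H : κ[X][X]}
    (hH : (X - C X) * H = P.map C * C Q - C P * Q.map C) :
    Irreducible H ∧ H.IsPrimitive := by
  have hQne : Q ≠ 0 := by
    rintro rfl
    simp at hQ0
  have hX1 : (X - 1 : κ[X]).Monic := by
    have := monic_X_sub_C (1 : κ)
    rwa [C_1] at this
  have hPm : P.Monic := by
    rw [hP]
    exact (monic_X_pow _).mul hX1
  have hPd : P.natDegree = n := by
    rw [hP, (monic_X_pow _).natDegree_mul hX1, natDegree_X_pow]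
    have : (X - 1 : κ[X]).natDegree = 1 := by
      have := natDegree_X_sub_C (1 : κ)
      rwa [C_1] at this
    rw [this]
    omega
  obtain ⟨d1, d2⟩ := lead hPm hPd hQ hQne hH
  -- the value at `x = 1`
  have e1 : H.map (evalRingHom (1 : κ)) = X ^ (n - 1) * C (Q.eval 1) := by
    have h1 := congrArg (Polynomial.map (evalRingHom (1 : κ))) hH
    have hc : (evalRingHom (1 : κ)).comp C = RingHom.id κ := by
      ext x; simp
    have hP1 : P.eval 1 = 0 := by
      rw [hP]; simp
    simp only [Polynomial.map_mul, Polynomial.map_sub, map_X, map_C, Polynomial.map_map, hc,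
      Polynomial.map_id, coe_evalRingHom, eval_X, hP1, C_0, zero_mul, sub_zero] at h1
    have hne : (X - C 1 : κ[X]) ≠ 0 := X_sub_C_ne_zero 1
    apply mul_left_cancel₀ hne
    rw [h1, hP, C_1]
    ring
  have hcoef : ∀ k, k < n - 1 → (H.coeff k).eval 1 = 0 := by
    intro k hk
    have h1 := congrArg (fun q => coeff q k) e1
    simp only [coeff_map, coe_evalRingHom] at h1
    rw [h1, coeff_mul_C, coeff_X_pow, if_neg (by omega), zero_mul]
  -- the value at `Y = 0`
  have e0 : H.coeff 0 = X ^ (n - 2) * (X - 1) * C (Q.eval 0) := by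
    have h1 := congrArg (fun q => eval 0 q) hH
    have hP0 : P.eval 0 = 0 := by
      rw [hP, eval_mul, eval_pow, eval_X, zero_pow (by omega), zero_mul]
    have hmap : ∀ R : κ[X], eval (0 : κ[X]) (R.map C) = C (R.eval 0) := by
      intro R
      have h2 := Polynomial.eval₂_at_apply (p := R) C (0 : κ)
      rw [← h2, eval_map, C_0]
    simp only [eval_mul, eval_sub, eval_X, eval_C, hmap, hP0, C_0, zero_mul, zero_sub] at h1
    rw [coeff_zero_eq_eval_zero]
    have hne : (X : κ[X]) ≠ 0 := X_ne_zero
    apply mul_left_cancel₀ hne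
    have h2 : X * eval 0 H = P * C (eval 0 Q) := by
      linear_combination -h1
    rw [h2, hP]
    have : n - 1 = (n - 2) + 1 := by omega
    rw [this, pow_succ]
    ring
  have hprim : H.IsPrimitive := by
    intro r hr
    rw [C_dvd_iff_dvd_coeff] at hr
    have r1 : r ∣ Q := by
      rw [← d2]; exact hr _
    have r2 : r ∣ X ^ (n - 2) * (X - 1) * C (Q.eval 0) := by
      rw [← e0]; exact hr 0
    have c1 : IsCoprime Q (X ^ (n - 2) * (X - 1) * C (Q.eval 0)) := by
      have a1 : IsCoprime (X : κ[X]) Q := by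
        rw [irreducible_X.coprime_iff_not_dvd, X_dvd_iff, coeff_zero_eq_eval_zero]
        exact hQ0
      have a2 : IsCoprime (X - 1 : κ[X]) Q := by
        have := irreducible_X_sub_C (1 : κ)
        rw [C_1] at this
        rw [this.coprime_iff_not_dvd, ← C_1, dvd_iff_isRoot]
        exact hQ1
      have a3 : IsCoprime (C (Q.eval 0)) Q := by
        exact ⟨C (Q.eval 0)⁻¹, 0, by rw [zero_mul, add_zero, ← C_mul, inv_mul_cancel₀ hQ0, C_1]⟩
      exact ((a1.pow_left.mul_left a2).mul_left a3).symm
    exact c1.isUnit_of_dvd' r1 r2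
  refine ⟨?_, hprim⟩
  have hpr : Prime (X - C 1 : κ[X]) := prime_X_sub_C 1
  apply irreducible_of_eisenstein_criterion (P := Ideal.span {(X - C 1 : κ[X])})
  · rwa [Ideal.span_singleton_prime hpr.ne_zero]
  · rw [d2, Ideal.mem_span_singleton, dvd_iff_isRoot]
    exact hQ1
  · intro k hk
    rw [Ideal.mem_span_singleton, dvd_iff_isRoot]
    apply hcoef
    have h2 : k < H.natDegree := by
      have hH0 : H ≠ 0 := by
        rintro rfl
        simp at hk
      rw [degree_eq_natDegree hH0] at hk
      exact_mod_cast hk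
    omega
  · rw [← natDegree_pos_iff_degree_pos, d1]
    omega
  · rw [Ideal.span_singleton_pow, Ideal.mem_span_singleton, e0]
    intro hcon
    have h1 : (X - C 1 : κ[X]) ∣ X ^ (n - 2) * C (Q.eval 0) := by
      have h2 : (X - C 1 : κ[X]) * (X - C 1) ∣ (X - C 1) * (X ^ (n - 2) * C (Q.eval 0)) := by
        have h3 : (X - C 1 : κ[X]) * (X ^ (n - 2) * C (Q.eval 0)) =
            X ^ (n - 2) * (X - 1) * C (Q.eval 0) := by
          rw [C_1]; ring
        rw [h3, ← sq]
        exact hcon
      exact (mul_dvd_mul_iff_left hpr.ne_zero).1 h2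
    rw [dvd_iff_isRoot, IsRoot.def] at h1
    simp at h1
    exact hQ0 h1
  · exact hprim

lemma der_three {n : ℕ} (hn : 5 ≤ n) (hn0 : (n : κ) = 0) :
    derivative (X ^ (n - 2) * (X ^ 2 - 2 * X - 1) : κ[X]) = C 2 * X ^ (n - 3) * (X + 1) := by
  obtain ⟨m, rfl⟩ : ∃ m, n = m + 5 := ⟨n - 5, by omega⟩
  have e1 : m + 5 - 2 = m + 3 := by omega
  have e2 : m + 5 - 3 = m + 2 := by omega
  have hm : (C ((m : κ) + 5) : κ[X]) = 0 := by
    have : (m : κ) + 5 = 0 := by exact_mod_cast hn0
    rw [this, C_0]
  rw [e1, e2]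
  have h3 : (X ^ (m + 3) * (X ^ 2 - 2 * X - 1) : κ[X]) = X ^ (m + 5) - C 2 * X ^ (m + 4) -
      X ^ (m + 3) := by
    rw [show (C 2 : κ[X]) = 2 from rfl]
    ring
  rw [h3]
  simp only [derivative_sub, derivative_C_mul, derivative_X_pow]
  have k1 : m + 5 - 1 = m + 4 := by omega
  have k2 : m + 4 - 1 = m + 3 := by omega
  have k3 : m + 3 - 1 = m + 2 := by omega
  rw [k1, k2, k3]
  have hm4 : (C ((m + 4 : ℕ) : κ) : κ[X]) = - 1 := by
    have : ((m + 4 : ℕ) : κ) = -1 := by
      push_cast at hn0 ⊢
      linear_combination hn0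
    rw [this, C_neg, C_1]
  have hm3 : (C ((m + 3 : ℕ) : κ) : κ[X]) = - C 2 := by
    have : ((m + 3 : ℕ) : κ) = -2 := by
      push_cast at hn0 ⊢
      linear_combination hn0
    rw [this, C_neg]
  have hm5 : (C ((m + 5 : ℕ) : κ) : κ[X]) = 0 := by
    rw [hn0, C_0]
  rw [hm5, hm4, hm3]
  ring

lemma irr_three [IsAlgClosed κ] {n : ℕ} (hn : 5 ≤ n) (hn0 : (n : κ) = 0) (h2 : (2 : κ) ≠ 0)
    {P : κ[X]} (hP : P = X ^ (n - 2) * (X ^ 2 - 2 * X - 1)) {H : κ[X][X]}
    (hH : (X - C X) * H = P.map C * C 1 - C P * (1 : κ[X]).map C) :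
    Irreducible H ∧ H.IsPrimitive := by
  have hq : (X ^ 2 - 2 * X - 1 : κ[X]).natDegree = 2 ∧ (X ^ 2 - 2 * X - 1 : κ[X]).Monic := by
    have h1 : (X ^ 2 - 2 * X - 1 : κ[X]) = C 1 * X ^ 2 + C (-2) * X + C (-1) := by
      simp only [C_neg, C_1]
      rw [show (C 2 : κ[X]) = 2 from rfl]
      ring
    rw [h1]
    refine ⟨natDegree_quadratic one_ne_zero, ?_⟩
    rw [Monic, leadingCoeff_quadratic one_ne_zero]
  have hPm : P.Monic := by
    rw [hP]
    exact (monic_X_pow _).mul hq.2
  have hPd : P.natDegree = n := by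
    rw [hP, (monic_X_pow _).natDegree_mul hq.2, natDegree_X_pow, hq.1]
    omega
  obtain ⟨d1, d2⟩ := lead hPm hPd (by rw [natDegree_one]; omega) one_ne_zero hH
  have hHm : H.Monic := d2
  rw [C_1, mul_one, Polynomial.map_one, mul_one] at hH
  -- the roots
  obtain ⟨s, hs⟩ : ∃ s : κ, s ^ 2 - 2 * s - 1 = 0 := by
    obtain ⟨s, hs⟩ := IsAlgClosed.exists_root (X ^ 2 - 2 * X - 1 : κ[X])
      (by rw [degree_eq_natDegree hq.2.ne_zero, hq.1]; norm_num)
    refine ⟨s, ?_⟩
    simpa using hs
  have hs0 : s ≠ 0 := by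
    rintro rfl
    norm_num at hs
  have hs' : (2 - s) ≠ 0 := by
    intro h
    have : s = 2 := by linear_combination -h
    rw [this] at hs
    norm_num at hs
  have hss : s ≠ 2 - s := by
    intro h
    have h3 : 2 * (s - 1) = 0 := by linear_combination h
    rcases mul_eq_zero.1 h3 with h4 | h4
    · exact h2 h4
    · have : s = 1 := by linear_combination h4
      rw [this] at hs
      norm_num at hs
      exact h2 hs
  have hfac : (X ^ 2 - 2 * X - 1 : κ[X]) = (X - C s) * (X - C (2 - s)) := by
    have h5 : (C (s ^ 2 - 2 * s - 1) : κ[X]) = 0 := by rw [hs, C_0]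
    simp only [C_sub, C_mul, C_pow, C_1] at h5 ⊢
    rw [show (C 2 : κ[X]) = 2 from rfl] at h5 ⊢
    linear_combination h5
  -- the value at `x = s`
  have e1 : H.map (evalRingHom s) = X ^ (n - 2) * (X - C (2 - s)) := by
    have h1 := congrArg (Polynomial.map (evalRingHom s)) hH
    have hc : (evalRingHom s).comp C = RingHom.id κ := by
      ext x; simp
    have hP1 : P.eval s = 0 := by
      rw [hP, hfac]; simp
    simp only [Polynomial.map_mul, Polynomial.map_sub, map_X, map_C, Polynomial.map_map, hc,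
      Polynomial.map_id, coe_evalRingHom, eval_X, hP1, C_0, sub_zero] at h1
    have hne : (X - C s : κ[X]) ≠ 0 := X_sub_C_ne_zero s
    apply mul_left_cancel₀ hne
    rw [h1, hP, hfac]
    ring
  -- the value at `Y = 0`
  have e0 : H.coeff 0 = X ^ (n - 3) * ((X - C s) * (X - C (2 - s))) := by
    have h1 := congrArg (fun q => eval 0 q) hH
    have hP0 : P.eval 0 = 0 := by
      rw [hP, eval_mul, eval_pow, eval_X, zero_pow (by omega), zero_mul]
    have hmap : ∀ R : κ[X], eval (0 : κ[X]) (R.map C) = C (R.eval 0) := by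
      intro R
      have h2 := Polynomial.eval₂_at_apply (p := R) C (0 : κ)
      rw [← h2, eval_map, C_0]
    simp only [eval_mul, eval_sub, eval_X, eval_C, hmap, hP0, C_0, zero_sub] at h1
    rw [coeff_zero_eq_eval_zero]
    have hne : (X : κ[X]) ≠ 0 := X_ne_zero
    apply mul_left_cancel₀ hne
    have h2 : X * eval 0 H = P := by
      linear_combination -h1
    rw [h2, hP, hfac]
    have : n - 2 = (n - 3) + 1 := by omega
    rw [this, pow_succ]
    ring
  refine ⟨?_, hHm.isPrimitive⟩
  -- the main step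
  have key : ∀ A B : κ[X][X], A.Monic → B.Monic → A * B = H → (B.coeff 0).eval s ≠ 0 →
      B.natDegree = 0 := by
    intro A B hA hB hAB hB0
    by_contra hdeg
    have hBs : (B.map (evalRingHom s)).Monic := hB.map _
    have hBd : (B.map (evalRingHom s)).natDegree = B.natDegree := hB.natDegree_map _
    have hdvd : B.map (evalRingHom s) ∣ X ^ (n - 2) * (X - C (2 - s)) := by
      rw [← e1, ← hAB, Polynomial.map_mul]
      exact dvd_mul_left _ _
    have hcop : IsCoprime (X : κ[X]) (B.map (evalRingHom s)) := by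
      rw [irreducible_X.coprime_iff_not_dvd, X_dvd_iff, coeff_map, coe_evalRingHom]
      exact hB0
    have hdvd2 : B.map (evalRingHom s) ∣ X - C (2 - s) :=
      (hcop.symm.pow_right).dvd_of_dvd_mul_left hdvd
    have hle := natDegree_le_of_dvd hdvd2 (X_sub_C_ne_zero _)
    rw [natDegree_X_sub_C, hBd] at hle
    have hB1 : B.natDegree = 1 := by omega
    have hBeq := hB.eq_X_add_C hB1
    set f : κ[X] := - B.coeff 0 with hf
    have hBf : B = X - C f := by
      rw [hf, C_neg, sub_neg_eq_add]
      exact hBeq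
    have hBH : B ∣ H := ⟨A, by rw [← hAB, mul_comm]⟩
    have hroot : (P.map C - C P : κ[X][X]).eval f = 0 := by
      have : B ∣ P.map C - C P := by
        rw [← hH]
        exact hBH.mul_left _
      rw [hBf, dvd_iff_isRoot] at this
      exact this
    have hcomp : P.comp f = P := by
      rw [eval_sub, eval_map, eval_C] at hroot
      rw [comp]
      linear_combination hroot
    have hfd : f.natDegree = 1 := by
      have h3 := congrArg natDegree hcomp
      rw [natDegree_comp, hPd] at h3
      have : 0 < n := by omega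
      exact Nat.eq_of_mul_eq_mul_left this (by rw [h3, mul_one])
    obtain ⟨a, ha, b, hab⟩ := natDegree_eq_one.1 hfd
    have hder := congrArg derivative hcomp
    rw [derivative_comp, hP, der_three hn hn0] at hder
    have hder2 : (C a * (C 2 * f ^ (n - 3) * (f + 1)) : κ[X]) = C 2 * X ^ (n - 3) * (X + 1) := by
      rw [← hder]
      have h4 : derivative f = C a := by
        rw [← hab]; simp
      rw [h4]
      simp only [mul_comp, C_comp, X_pow_comp, add_comp, X_comp, one_comp]
    have hder3 : (C a * (f ^ (n - 3) * (f + 1)) : κ[X]) = X ^ (n - 3) * (X + 1) := by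
      have h5 : (C 2 : κ[X]) ≠ 0 := C_ne_zero.2 h2
      apply mul_left_cancel₀ h5
      linear_combination hder2
    obtain ⟨m, rfl⟩ : ∃ m, n = m + 5 := ⟨n - 5, by omega⟩
    have e2 : m + 5 - 3 = m + 2 := by omega
    rw [e2] at hder3
    have hb : b = 0 ∨ b = -1 := by
      have h6 := congrArg (eval 0) hder3
      rw [← hab] at h6
      simp only [eval_mul, eval_C, eval_pow, eval_add, eval_X, mul_zero, zero_add, eval_one] at h6
      rw [zero_pow (by omega), zero_mul] at h6
      rcases mul_eq_zero.1 h6 with h7 | h7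
      · exact absurd h7 ha
      · rcases mul_eq_zero.1 h7 with h8 | h8
        · left; exact pow_eq_zero_iff (by omega) |>.1 h8
        · right; linear_combination h8
    have hfX : f = X := by
      rcases hb with rfl | rfl
      · rw [C_0, add_zero] at hab
        have h7 : (C (a ^ (m + 3)) * (C a * X + 1) : κ[X]) = X + 1 := by
          have h8 : (X ^ (m + 2) : κ[X]) ≠ 0 := pow_ne_zero _ X_ne_zero
          apply mul_left_cancel₀ h8
          rw [← hder3, ← hab, C_pow]
          ring
        have h9 := congrArg (eval (-1)) h7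
        simp only [eval_mul, eval_C, eval_add, eval_X, eval_one] at h9
        have h10 : a ^ (m + 3) * (1 - a) = 0 := by linear_combination h9
        rcases mul_eq_zero.1 h10 with h11 | h11
        · exact absurd h11 (pow_ne_zero _ ha)
        · have : a = 1 := by linear_combination -h11
          rw [← hab, this, C_1, one_mul]
      · exfalso
        have h7 : (C a * ((C a * X + C (-1)) ^ (m + 2) * C a) : κ[X]) = X ^ (m + 1) * (X + 1) := by
          apply mul_left_cancel₀ (X_ne_zero : (X : κ[X]) ≠ 0)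
          have h8 : (X * (X ^ (m + 1) * (X + 1)) : κ[X]) = X ^ (m + 2) * (X + 1) := by ring
          rw [h8, ← hder3, ← hab, C_neg, C_1]
          ring
        have h9 := congrArg (eval 0) h7
        simp only [eval_mul, eval_C, eval_pow, eval_add, eval_X, mul_zero, zero_add, eval_one]
          at h9
        rw [zero_pow (by omega), zero_mul] at h9
        rcases mul_eq_zero.1 h9 with h10 | h10
        · exact ha h10
        · rcases mul_eq_zero.1 h10 with h11 | h11
          · have := pow_eq_zero_iff (M₀ := κ) (a := -1) (n := m + 2) (by omega) |>.1 h11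
            norm_num at this
          · exact ha h11
    -- `H(x, x) = P'(x)`
    have hHX : H.eval X = derivative P := by
      have h12 := congrArg (fun q => eval X (derivative q)) hH
      simp only [derivative_mul, derivative_sub, derivative_X, derivative_C, sub_zero, one_mul,
        eval_add, eval_mul, eval_sub, eval_X, eval_C, sub_self, zero_mul, add_zero,
        derivative_map, eval_map] at h12
      rw [h12, eval₂_C_X]
    have hHX0 : H.eval X = 0 := by
      rw [hBf, hfX, dvd_iff_isRoot] at hBH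
      exact hBH
    rw [hHX0, hP, der_three hn hn0] at hHX
    have h13 : (C 2 * X ^ (m + 5 - 3) * (X + 1) : κ[X]) ≠ 0 := by
      refine mul_ne_zero (mul_ne_zero (C_ne_zero.2 h2) (pow_ne_zero _ X_ne_zero)) ?_
      have := X_add_C_ne_zero (1 : κ)
      rwa [C_1] at this
    exact h13 hHX.symm
  rw [hHm.irreducible_iff_natDegree]
  constructor
  · intro h1
    rw [h1, natDegree_one] at d1
    omega
  · intro A B hA hB hAB
    by_cases hB0 : (B.coeff 0).eval s = 0
    · left
      apply key B A hB hA (by rw [mul_comm]; exact hAB)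
      intro hA0
      have h1 : (X - C s) * (X - C s) ∣ (X - C s) * (X ^ (n - 3) * (X - C (2 - s))) := by
        have h3 : H.coeff 0 = A.coeff 0 * B.coeff 0 := by
          rw [← hAB, mul_coeff_zero]
        rw [e0] at h3
        have h4 : (X - C s) * (X ^ (n - 3) * (X - C (2 - s))) = A.coeff 0 * B.coeff 0 := by
          rw [← h3]; ring
        rw [h4]
        exact mul_dvd_mul (dvd_iff_isRoot.2 hA0) (dvd_iff_isRoot.2 hB0)
      have h5 := (mul_dvd_mul_iff_left (X_sub_C_ne_zero s)).1 h1
      rw [dvd_iff_isRoot, IsRoot.def] at h5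
      simp only [eval_mul, eval_pow, eval_X, eval_sub, eval_C] at h5
      rcases mul_eq_zero.1 h5 with h6 | h6
      · exact pow_ne_zero _ hs0 h6
      · exact hss (by linear_combination h6)
    · right
      exact key A B hA hB hAB hB0

theorem st_irr : St_irr := by
  intro κ _ _ h2 n P Q hn hF
  have hinj : Function.Injective (algebraMap κ[X] (RatFunc κ)) :=
    IsFractionRing.injective κ[X] (RatFunc κ)
  obtain ⟨H, hH⟩ := exH P Q
  refine ⟨H, hH, ?_⟩
  have hmain : Irreducible H ∧ H.IsPrimitive := by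
    rcases hF with ⟨hP, hQ⟩ | ⟨hn1, hP, hQ⟩ | ⟨hn0, hP, hQ⟩
    · apply irr_eis hn hP _ _ _ hH
      · rw [hQ, natDegree_one]; omega
      · rw [hQ]; simp
      · rw [hQ]; simp
    · apply irr_eis hn hP _ _ _ hH
      · rw [hQ]
        have h1 : (X ^ 2 - 2 * X + 2 : κ[X]) = C 1 * X ^ 2 + C (-2) * X + C 2 := by
          simp only [C_neg, C_1]
          rw [show (C 2 : κ[X]) = 2 from rfl]
          ring
        rw [h1, natDegree_quadratic one_ne_zero]
        omega
      · rw [hQ]; simpa using h2
      · rw [hQ]; simp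
    · subst hQ
      exact irr_three hn hn0 h2 hP hH
  exact (hmain.2.irreducible_iff_irreducible_map_fraction_map).1 hmain.1

end Pool.Agent.L7h76.AN
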