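import Mathlib
import Pool.Agent.L7h25.AN.Stm2
import Pool.Agent.L7h76.AN.Irr

/-!
The statements `St_irr2` and `St_pen2` of the project AN (characteristic two).
-/

set_option autoImplicit false

namespace Pool.Agent.L7h76.AN

open Polynomial Pool.Agent.L7h25.AN

variable {κ : Type} [Field κ]

lemma two0 [CharP κ 2] : (2 : κ) = 0 := CharTwo.two_eq_zero

lemma two0X [CharP κ 2] : (2 : κ[X]) = 0 := by
  have h := congrArg (C : κ → κ[X]) (two0 (κ := κ))
  rwa [C_0, show (C 2 : κ[X]) = 2 from rfl] at h

lemma quad_mon (b : κ) : (X ^ 2 + C b * X + 1 : κ[X]).natDegree = 2 ∧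
    (X ^ 2 + C b * X + 1 : κ[X]).Monic := by
  have h1 : (X ^ 2 + C b * X + 1 : κ[X]) = C 1 * X ^ 2 + C b * X + C 1 := by
    simp only [C_1, one_mul]
  rw [h1]
  refine ⟨natDegree_quadratic one_ne_zero, ?_⟩
  rw [Monic, leadingCoeff_quadratic one_ne_zero]

lemma der_odd [CharP κ 2] {n : ℕ} (hn : 5 ≤ n) (ho : Odd n) (b : κ) :
    derivative (X ^ (n - 2) * (X ^ 2 + C b * X + 1) : κ[X]) = X ^ (n - 3) * (X + 1) ^ 2 := by
  obtain ⟨m, hm⟩ := ho
  obtain ⟨q, rfl⟩ : ∃ q, m = q + 2 := ⟨m - 2, by omega⟩
  have hn' : n = 2 * q + 5 := by omega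
  subst hn'
  have e1 : 2 * q + 5 - 2 = 2 * q + 3 := by omega
  have e2 : 2 * q + 5 - 3 = 2 * q + 2 := by omega
  have h2 := two0X (κ := κ)
  rw [e1, e2]
  have h3 : (X ^ (2 * q + 3) * (X ^ 2 + C b * X + 1) : κ[X]) = X ^ (2 * q + 5) +
      C b * X ^ (2 * q + 4) + X ^ (2 * q + 3) := by ring
  rw [h3]
  simp only [derivative_add, derivative_C_mul, derivative_X_pow]
  have k1 : 2 * q + 5 - 1 = 2 * q + 4 := by omega
  have k2 : 2 * q + 4 - 1 = 2 * q + 3 := by omega
  have k3 : 2 * q + 3 - 1 = 2 * q + 2 := by omega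
  rw [k1, k2, k3]
  have c5 : (C ((2 * q + 5 : ℕ) : κ) : κ[X]) = 1 := by
    rw [C_eq_natCast]
    push_cast
    linear_combination ((q : κ[X]) + 2) * h2
  have c4 : (C ((2 * q + 4 : ℕ) : κ) : κ[X]) = 0 := by
    rw [C_eq_natCast]
    push_cast
    linear_combination ((q : κ[X]) + 2) * h2
  have c3 : (C ((2 * q + 3 : ℕ) : κ) : κ[X]) = 1 := by
    rw [C_eq_natCast]
    push_cast
    linear_combination ((q : κ[X]) + 1) * h2
  rw [c5, c4, c3]
  linear_combination (-(X ^ (2 * q + 3) : κ[X])) * h2

lemma irr_odd [IsAlgClosed κ] [CharP κ 2] {n : ℕ} (hn : 5 ≤ n) (ho : Odd n) {b : κ} (hb0 : b ≠ 0)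
    {P : κ[X]} (hP : P = X ^ (n - 2) * (X ^ 2 + C b * X + 1)) {H : κ[X][X]}
    (hH : (X - C X) * H = P.map C * C 1 - C P * (1 : κ[X]).map C) :
    Irreducible H ∧ H.IsPrimitive := by
  have hq := quad_mon b
  have h2 := two0 (κ := κ)
  have h2X := two0X (κ := κ)
  have hPm : P.Monic := by
    rw [hP]
    exact (monic_X_pow _).mul hq.2
  have hPd : P.natDegree = n := by
    rw [hP, (monic_X_pow _).natDegree_mul hq.2, natDegree_X_pow, hq.1]
    omega
  obtain ⟨d1, d2⟩ := lead hPm hPd (by rw [natDegree_one]; omega) one_ne_zero hH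
  have hHm : H.Monic := d2
  rw [C_1, mul_one, Polynomial.map_one, mul_one] at hH
  -- the roots
  obtain ⟨s, hs⟩ : ∃ s : κ, s ^ 2 + b * s + 1 = 0 := by
    obtain ⟨s, hs⟩ := IsAlgClosed.exists_root (X ^ 2 + C b * X + 1 : κ[X])
      (by rw [degree_eq_natDegree hq.2.ne_zero, hq.1]; norm_num)
    refine ⟨s, ?_⟩
    simpa using hs
  have hs0 : s ≠ 0 := by
    rintro rfl
    norm_num at hs
  have hs' : (s + b) ≠ 0 := by
    intro h
    have : (1 : κ) = 0 := by linear_combination hs - s * h
    exact one_ne_zero this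
  have hss : s ≠ s + b := by
    intro h
    exact hb0 (by linear_combination -h)
  have hfac : (X ^ 2 + C b * X + 1 : κ[X]) = (X - C s) * (X - C (s + b)) := by
    have h5 : (C (s ^ 2 + b * s + 1) : κ[X]) = 0 := by rw [hs, C_0]
    simp only [C_add, C_mul, C_pow, C_1] at h5 ⊢
    linear_combination (-1) * h5 + (X * C b + X * C s + 1) * h2X
  -- the value at `x = s`
  have e1 : H.map (evalRingHom s) = X ^ (n - 2) * (X - C (s + b)) := by
    have h1 := congrArg (Polynomial.map (evalRingHom s)) hH
    have hc : (evalRingHom s).comp C = RingHom.id κ := by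
      ext x; simp
    have hP1 : P.eval s = 0 := by
      rw [hP, hfac]; simp
    simp only [Polynomial.map_mul, Polynomial.map_sub, map_X, map_C, Polynomial.map_map, hc,
      Polynomial.map_id, coe_evalRingHom, eval_X, hP1, C_0, sub_zero] at h1
    have hne : (X - C s : κ[X]) ≠ 0 := X_sub_C_ne_zero s
    apply mul_left_cancel₀ hne
    rw [h1, hP, hfac]
    ring
  -- the value at `Y = 0`
  have e0 : H.coeff 0 = X ^ (n - 3) * ((X - C s) * (X - C (s + b))) := by
    have h1 := congrArg (fun q => eval 0 q) hH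
    have hP0 : P.eval 0 = 0 := by
      rw [hP, eval_mul, eval_pow, eval_X, zero_pow (by omega), zero_mul]
    have hmap : ∀ R : κ[X], eval (0 : κ[X]) (R.map C) = C (R.eval 0) := by
      intro R
      have h2 := Polynomial.eval₂_at_apply (p := R) C (0 : κ)
      rw [← h2, eval_map, C_0]
    simp only [eval_mul, eval_sub, eval_X, eval_C, hmap, hP0, C_0, zero_sub] at h1
    rw [coeff_zero_eq_eval_zero]
    have hne : (X : κ[X]) ≠ 0 := X_ne_zero
    apply mul_left_cancel₀ hne
    have h2 : X * eval 0 H = P := by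
      linear_combination -h1
    rw [h2, hP, hfac]
    have : n - 2 = (n - 3) + 1 := by omega
    rw [this, pow_succ]
    ring
  refine ⟨?_, hHm.isPrimitive⟩
  -- the main step
  have key : ∀ A B : κ[X][X], A.Monic → B.Monic → A * B = H → (B.coeff 0).eval s ≠ 0 →
      B.natDegree = 0 := by
    intro A B hA hB hAB hB0
    by_contra hdeg
    have hBs : (B.map (evalRingHom s)).Monic := hB.map _
    have hBd : (B.map (evalRingHom s)).natDegree = B.natDegree := hB.natDegree_map _
    have hdvd : B.map (evalRingHom s) ∣ X ^ (n - 2) * (X - C (s + b)) := by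
      rw [← e1, ← hAB, Polynomial.map_mul]
      exact dvd_mul_left _ _
    have hcop : IsCoprime (X : κ[X]) (B.map (evalRingHom s)) := by
      rw [irreducible_X.coprime_iff_not_dvd, X_dvd_iff, coeff_map, coe_evalRingHom]
      exact hB0
    have hdvd2 : B.map (evalRingHom s) ∣ X - C (s + b) :=
      (hcop.symm.pow_right).dvd_of_dvd_mul_left hdvd
    have hle := natDegree_le_of_dvd hdvd2 (X_sub_C_ne_zero _)
    rw [natDegree_X_sub_C, hBd] at hle
    have hB1 : B.natDegree = 1 := by omega
    have hBeq := hB.eq_X_add_C hB1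
    set f : κ[X] := - B.coeff 0 with hf
    have hBf : B = X - C f := by
      rw [hf, C_neg, sub_neg_eq_add]
      exact hBeq
    have hBH : B ∣ H := ⟨A, by rw [← hAB, mul_comm]⟩
    have hroot : (P.map C - C P : κ[X][X]).eval f = 0 := by
      have : B ∣ P.map C - C P := by
        rw [← hH]
        exact hBH.mul_left _
      rw [hBf, dvd_iff_isRoot] at this
      exact this
    have hcomp : P.comp f = P := by
      rw [eval_sub, eval_map, eval_C] at hroot
      rw [comp]
      linear_combination hroot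
    have hfd : f.natDegree = 1 := by
      have h3 := congrArg natDegree hcomp
      rw [natDegree_comp, hPd] at h3
      have : 0 < n := by omega
      exact Nat.eq_of_mul_eq_mul_left this (by rw [h3, mul_one])
    obtain ⟨a, ha, c, hab⟩ := natDegree_eq_one.1 hfd
    have hder := congrArg derivative hcomp
    rw [derivative_comp, hP, der_odd hn ho] at hder
    have hder3 : (C a * (f ^ (n - 3) * (f + 1) ^ 2) : κ[X]) = X ^ (n - 3) * (X + 1) ^ 2 := by
      rw [← hder]
      have h4 : derivative f = C a := by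
        rw [← hab]; simp
      rw [h4]
      simp only [mul_comp, pow_comp, add_comp, X_comp, one_comp]
    obtain ⟨m, rfl⟩ : ∃ m, n = m + 5 := ⟨n - 5, by omega⟩
    have e2 : m + 5 - 3 = m + 2 := by omega
    have e3 : m + 5 - 2 = m + 3 := by omega
    rw [e2] at hder3
    have hb : c = 0 ∨ c = 1 := by
      have h6 := congrArg (eval 0) hder3
      rw [← hab] at h6
      simp only [eval_mul, eval_C, eval_pow, eval_add, eval_X, mul_zero, zero_add, eval_one] at h6
      rw [zero_pow (by omega), zero_mul] at h6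
      rcases mul_eq_zero.1 h6 with h7 | h7
      · exact absurd h7 ha
      · rcases mul_eq_zero.1 h7 with h8 | h8
        · left; exact pow_eq_zero_iff (by omega) |>.1 h8
        · right
          have h9 : c + 1 = 0 := pow_eq_zero_iff (by omega) |>.1 h8
          linear_combination h9 - h2
    have hfX : f = X := by
      rcases hb with rfl | rfl
      · rw [C_0, add_zero] at hab
        have h7 : (C (a ^ (m + 3)) * (C a * X + 1) ^ 2 : κ[X]) = (X + 1) ^ 2 := by
          have h8 : (X ^ (m + 2) : κ[X]) ≠ 0 := pow_ne_zero _ X_ne_zero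
          apply mul_left_cancel₀ h8
          rw [← hder3, ← hab, C_pow]
          ring
        have h9 := congrArg (eval 1) h7
        simp only [eval_mul, eval_C, eval_add, eval_X, eval_one, eval_pow] at h9
        have h10 : a ^ (m + 3) * (a + 1) ^ 2 = 0 := by linear_combination h9 + 2 * h2
        rcases mul_eq_zero.1 h10 with h11 | h11
        · exact absurd h11 (pow_ne_zero _ ha)
        · have h12 : a + 1 = 0 := pow_eq_zero_iff (by omega) |>.1 h11
          have : a = 1 := by linear_combination h12 - h2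
          rw [← hab, this, C_1, one_mul]
      · exfalso
        have h7 := congrArg (eval 0) hcomp
        rw [eval_comp, ← hab, hP, e3] at h7
        simp only [eval_mul, eval_C, eval_add, eval_X, eval_one, eval_pow, mul_zero, zero_add,
          one_pow, mul_one] at h7
        rw [zero_pow (by omega : m + 3 ≠ 0), zero_mul, one_mul] at h7
        exact hb0 (by linear_combination h7 - h2)
    -- `H(x, x) = P'(x)`
    have hHX : H.eval X = derivative P := by
      have h12 := congrArg (fun q => eval X (derivative q)) hH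
      simp only [derivative_mul, derivative_sub, derivative_X, derivative_C, sub_zero, one_mul,
        eval_add, eval_mul, eval_sub, eval_X, eval_C, sub_self, zero_mul, add_zero,
        derivative_map, eval_map] at h12
      rw [h12, eval₂_C_X]
    have hHX0 : H.eval X = 0 := by
      rw [hBf, hfX, dvd_iff_isRoot] at hBH
      exact hBH
    rw [hHX0, hP, der_odd hn ho] at hHX
    have h13 : (X ^ (m + 5 - 3) * (X + 1) ^ 2 : κ[X]) ≠ 0 := by
      refine mul_ne_zero (pow_ne_zero _ X_ne_zero) (pow_ne_zero _ ?_)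
      have := X_add_C_ne_zero (1 : κ)
      rwa [C_1] at this
    exact h13 hHX.symm
  rw [hHm.irreducible_iff_natDegree]
  constructor
  · intro h1
    rw [h1, natDegree_one] at d1
    omega
  · intro A B hA hB hAB
    by_cases hB0 : (B.coeff 0).eval s = 0
    · left
      apply key B A hB hA (by rw [mul_comm]; exact hAB)
      intro hA0
      have h1 : (X - C s) * (X - C s) ∣ (X - C s) * (X ^ (n - 3) * (X - C (s + b))) := by
        have h3 : H.coeff 0 = A.coeff 0 * B.coeff 0 := by
          rw [← hAB, mul_coeff_zero]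
        rw [e0] at h3
        have h4 : (X - C s) * (X ^ (n - 3) * (X - C (s + b))) = A.coeff 0 * B.coeff 0 := by
          rw [← h3]; ring
        rw [h4]
        exact mul_dvd_mul (dvd_iff_isRoot.2 hA0) (dvd_iff_isRoot.2 hB0)
      have h5 := (mul_dvd_mul_iff_left (X_sub_C_ne_zero s)).1 h1
      rw [dvd_iff_isRoot, IsRoot.def] at h5
      simp only [eval_mul, eval_pow, eval_X, eval_sub, eval_C] at h5
      rcases mul_eq_zero.1 h5 with h6 | h6
      · exact pow_ne_zero _ hs0 h6
      · exact hss (by linear_combination h6)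
    · right
      exact key A B hA hB hAB hB0

theorem st_irr2 : St_irr2 := by
  intro κ _ _ _ n P Q β hn hF
  have hinj : Function.Injective (algebraMap κ[X] (RatFunc κ)) :=
    IsFractionRing.injective κ[X] (RatFunc κ)
  obtain ⟨H, hH⟩ := exH P Q
  refine ⟨H, hH, ?_⟩
  have h2 := two0 (κ := κ)
  have h2X := two0X (κ := κ)
  have hmain : Irreducible H ∧ H.IsPrimitive := by
    rcases hF with ⟨-, hβ0, hβ1, hP, hQ⟩ | ⟨ho, -, b, hb0, -, hP, hQ⟩
    · have hP' : P = X ^ (n - 1) * (X - 1) := by
        rw [hP]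
        linear_combination (X ^ (n - 1) : κ[X]) * h2X
      apply irr_eis hn hP' _ _ _ hH
      · rw [hQ, natDegree_X_add_C]; omega
      · rw [hQ]
        simpa using hβ0
      · rw [hQ]
        simp only [eval_add, eval_X, eval_C]
        intro h
        have h3 : (β - 1) ^ 2 = 0 := by linear_combination h - β * h2
        have h4 : β - 1 = 0 := pow_eq_zero_iff (by omega) |>.1 h3
        exact hβ1 (by linear_combination h4)
    · subst hQ
      exact irr_odd hn ho hb0 hP hH
  exact (hmain.2.irreducible_iff_irreducible_map_fraction_map).1 hmain.1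

lemma geomP (m : ℕ) (x : κ) : ∃ S : κ[X], (X ^ m - C x ^ m : κ[X]) = (X - C x) * S ∧
    S.eval x = m * x ^ (m - 1) := by
  refine ⟨∑ i ∈ Finset.range m, X ^ i * C x ^ (m - 1 - i), ?_, ?_⟩
  · rw [mul_comm]
    exact (geom_sum₂_mul (X : κ[X]) (C x) m).symm
  · rw [eval_finsetSum]
    simp only [eval_mul, eval_pow, eval_X, eval_C]
    exact geom_sum₂_self x m

lemma parity [CharP κ 2] (m : ℕ) : (m : κ) = 0 ∨ (m : κ) = 1 := by
  have h2 := two0 (κ := κ)
  rcases Nat.even_or_odd' m with ⟨q, rfl | rfl⟩
  · left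
    push_cast
    rw [h2, zero_mul]
  · right
    push_cast
    rw [h2, zero_mul, zero_add]

theorem st_pen2 : St_pen2 := by
  intro K _ _ n P Q β hn hF
  have h2 := two0 (κ := K)
  have h2X := two0X (κ := K)
  rcases hF with ⟨he, hβ0, hβ1, hP, hQ⟩ | ⟨ho, hβ, b, hb0, hb1, hP, hQ⟩
  · obtain ⟨m, hm⟩ := he
    obtain ⟨q, rfl⟩ : ∃ q, m = q + 2 := ⟨m - 2, by omega⟩
    have hn' : n = 2 * q + 4 := by omega
    subst hn'
    have hβ1' : β + 1 ≠ 0 := fun h => hβ1 (by linear_combination h - h2)
    have e1 : 2 * q + 4 - 1 = 2 * q + 3 := by omega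
    have e2 : 2 * q + 4 - 2 = 2 * q + 2 := by omega
    have hX1 : (X + 1 : K[X]).Monic := by
      have := monic_X_add_C (1 : K)
      rwa [C_1] at this
    have hPm : P.Monic := by
      rw [hP]
      exact (monic_X_pow _).mul hX1
    have hPd : P.natDegree = 2 * q + 4 := by
      rw [hP, (monic_X_pow _).natDegree_mul hX1, natDegree_X_pow]
      have : (X + 1 : K[X]).natDegree = 1 := by
        have := natDegree_X_add_C (1 : K)
        rwa [C_1] at this
      rw [this]
      omega
    have hPβ : P.eval β = β ^ (2 * q + 3) * (β + 1) := by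
      rw [hP, e1]; simp
    have hQβ : Q.eval β = β * (β + 1) := by
      rw [hQ]
      simp only [eval_add, eval_X, eval_C]
      ring
    have hQβ0 : Q.eval β ≠ 0 := by
      rw [hQβ]; exact mul_ne_zero hβ0 hβ1'
    refine ⟨2 * q + 2, hn, hPm, hPd, ?_, by omega, ?_, one_ne_zero, hβ0, ?_, ?_, ?_, hQβ0, ?_⟩
    · rw [hQ, natDegree_X_add_C]; omega
    · rw [hP, hQ, e1]
      have h3 : (X ^ (2 * q + 3) * (X + 1) : K[X]) = X ^ (2 * q + 4) + X ^ (2 * q + 3) := by ring
      rw [h3]
      simp only [derivative_add, derivative_X_pow, derivative_X, derivative_C]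
      have k1 : 2 * q + 4 - 1 = 2 * q + 3 := by omega
      have k2 : 2 * q + 3 - 1 = 2 * q + 2 := by omega
      rw [k1, k2]
      have c4 : (C ((2 * q + 4 : ℕ) : K) : K[X]) = 0 := by
        rw [C_eq_natCast]
        push_cast
        linear_combination ((q : K[X]) + 2) * h2X
      have c3 : (C ((2 * q + 3 : ℕ) : K) : K[X]) = 1 := by
        rw [C_eq_natCast]
        push_cast
        linear_combination ((q : K[X]) + 1) * h2X
      rw [c4, c3, C_1, C_pow]
      linear_combination (X ^ (2 * q + 3) * C β - X ^ (2 * q + 4)) * h2X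
    · rw [hP, e1]; simp
    · rw [hQ]; simpa using hβ0
    · rw [hPβ]; exact mul_ne_zero (pow_ne_zero _ hβ0) hβ1'
    · have ht : P.eval β / Q.eval β = β ^ (2 * q + 2) := by
        rw [div_eq_iff hQβ0, hPβ, hQβ]; ring
      rw [ht]
      obtain ⟨S, hS1, hS2⟩ := geomP (q + 2) β
      obtain ⟨S', hS1', hS2'⟩ := geomP (q + 1) β
      refine ⟨S ^ 2 + X * S' ^ 2, ?_, ?_⟩
      · have h3 : (X - C β : K[X]) ^ 2 * (S ^ 2 + X * S' ^ 2) =
            ((X - C β) * S) ^ 2 + X * ((X - C β) * S') ^ 2 := by ring
        rw [h3, ← hS1, ← hS1', hP, hQ, e1, C_pow, C_pow]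
        linear_combination (X ^ (q + 2) * C β ^ (q + 2) + X * X ^ (q + 1) * C β ^ (q + 1) -
          C β ^ (2 * q + 4) - X * C β ^ (2 * q + 2)) * h2X
      · simp only [eval_add, eval_mul, eval_pow, eval_X, hS2, hS2']
        have k1 : q + 2 - 1 = q + 1 := by omega
        have k2 : q + 1 - 1 = q := by omega
        rw [k1, k2]
        have h4 : (((q + 2 : ℕ) : K) * β ^ (q + 1)) ^ 2 + β * (((q + 1 : ℕ) : K) * β ^ q) ^ 2 =
            β ^ (2 * q + 1) * (((q + 2 : ℕ) : K) ^ 2 * β + ((q + 1 : ℕ) : K) ^ 2) := by ring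
        rw [h4]
        apply mul_ne_zero (pow_ne_zero _ hβ0)
        push_cast
        rcases parity (κ := K) q with h5 | h5
        · rw [h5]
          intro h6
          exact one_ne_zero (α := K) (by linear_combination h6 - 2 * β * h2)
        · rw [h5]
          intro h6
          exact hβ0 (by linear_combination h6 - (4 * β + 2) * h2)
  · subst hQ
    subst hβ
    obtain ⟨m, hm⟩ := ho
    obtain ⟨q, rfl⟩ : ∃ q, m = q + 2 := ⟨m - 2, by omega⟩
    have hq := quad_mon b
    have hPm : P.Monic := by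
      rw [hP]
      exact (monic_X_pow _).mul hq.2
    have hPd : P.natDegree = n := by
      rw [hP, (monic_X_pow _).natDegree_mul hq.2, natDegree_X_pow, hq.1]
      omega
    have hP1 : P.eval 1 = b := by
      rw [hP]
      simp only [eval_mul, eval_pow, eval_X, eval_add, eval_C, eval_one, one_pow, mul_one, one_mul]
      linear_combination h2
    refine ⟨n - 3, hn, hPm, hPd, ?_, by omega, ?_, one_ne_zero, one_ne_zero, ?_, ?_, ?_, ?_, ?_⟩
    · rw [natDegree_one]; omega
    · have h5 := der_odd hn ⟨_, hm⟩ b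
      rw [← hP] at h5
      rw [h5, derivative_one, C_1]
      linear_combination (2 * X * X ^ (n - 3)) * h2X
    · rw [hP, eval_mul, eval_pow, eval_X, zero_pow (by omega), zero_mul]
    · simp
    · rw [hP1]; exact hb0
    · simp
    · have ht : P.eval 1 / (1 : K[X]).eval 1 = b := by rw [hP1]; simp
      rw [ht]
      obtain ⟨S, hS1, hS2⟩ := geomP (q + 2) (1 : K)
      have hn' : n = 2 * q + 5 := by omega
      subst hn'
      have e3 : 2 * q + 5 - 2 = 2 * q + 3 := by omega
      refine ⟨X ^ (2 * q + 3) + C b * S ^ 2, ?_, ?_⟩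
      · have h3 : (X - C 1 : K[X]) ^ 2 * (X ^ (2 * q + 3) + C b * S ^ 2) =
            (X - C 1) ^ 2 * X ^ (2 * q + 3) + C b * ((X - C 1) * S) ^ 2 := by ring
        rw [h3, ← hS1, hP, e3, C_1, one_pow]
        linear_combination (X * X ^ (2 * q + 3) + C b * X ^ (q + 2) - C b) * h2X
      · simp only [eval_add, eval_mul, eval_pow, eval_X, eval_C, hS2, one_pow, mul_one]
        push_cast
        rcases parity (κ := K) q with h5 | h5
        · rw [h5]
          intro h6
          exact one_ne_zero (α := K) (by linear_combination h6 - 2 * b * h2)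
        · rw [h5]
          intro h6
          exact hb1 (by linear_combination h6 - (4 * b + 1) * h2)

end Pool.Agent.L7h76.AN
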